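import Mathlib

/-!
# There is a veto interval graph that is not a midpoint veto interval graph

Counting. For midpoint representations of a graph on `n` vertices, adjacency is determined by the
signs of `3 n²` linear forms in `2 n` variables, so there are at most `(9 n / 2) ^ (2 n)` labelled
midpoint veto interval graphs. For general veto interval graphs the three coordinates are
independent: `3 K` probes can distinguish `K` positions of each of the three coordinates of each of
the other `7 K` intervals, so there are at least `K ^ (21 K)` labelled veto interval graphs on `10 K`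
vertices. This is more than `(45 K) ^ (20 K)` if `K = 50 ^ 20`.
-/

set_option autoImplicit false

namespace Pool.Agent.Results.MP_c8a11a_co.NotAllMidpoint

open Finset

/-- `a ↦ (l a, v a, r a)` is a veto interval representation of `G` -/
def IsRep {V : Type} (G : SimpleGraph V) (l v r : V → ℝ) : Prop :=
  (∀ a, l a < v a ∧ v a < r a) ∧
  (∀ a b, l a = l b → v a = v b → r a = r b → a = b) ∧
  ∀ a b, a ≠ b → (G.Adj a b ↔
    (v a < l b ∧ l b < r a ∧ r a < v b) ∨ (v b < l a ∧ l a < r b ∧ r b < v a))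

/-- veto interval graphs -/
def IsVI {V : Type} (G : SimpleGraph V) : Prop := ∃ l v r : V → ℝ, IsRep G l v r

/-- midpoint veto interval graphs -/
def IsMVI {V : Type} (G : SimpleGraph V) : Prop :=
  ∃ l v r : V → ℝ, IsRep G l v r ∧ ∀ a, v a = (l a + r a) / 2

section Signs

variable {W M : Type} [AddCommGroup W] [Module ℝ W] [FiniteDimensional ℝ W] [Fintype M]
  [DecidableEq M]

/-- the set of forms that are positive at `w` -/
noncomputable def pat (φ : M → (W →ₗ[ℝ] ℝ)) (w : W) : Finset M :=
  by classical exact univ.filter (fun m => 0 < φ m w)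

omit [FiniteDimensional ℝ W] [DecidableEq M] in
theorem mem_pat (φ : M → (W →ₗ[ℝ] ℝ)) (w : W) (m : M) : m ∈ pat φ w ↔ 0 < φ m w := by
  simp [pat]

/-- the set of all patterns -/
noncomputable def pats (φ : M → (W →ₗ[ℝ] ℝ)) : Finset (Finset M) :=
  (Set.toFinite (Set.range (pat φ))).toFinset

omit [FiniteDimensional ℝ W] [DecidableEq M] in
theorem mem_pats (φ : M → (W →ₗ[ℝ] ℝ)) (u : Finset M) : u ∈ pats φ ↔ ∃ w, pat φ w = u := by
  simp [pats]

omit [FiniteDimensional ℝ W] in
theorem shatter_aux (φ : M → (W →ₗ[ℝ] ℝ)) (s : Finset M) (hs : (pats φ).Shatters s)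
    (g : s → ℝ) (hg : ∑ i, g i • φ i = 0) (i0 : s) : ¬ 0 < g i0 := by
  classical
  intro hpos
  obtain ⟨u, hu, hsu⟩ := hs (t := s.filter (fun m => ∃ h : m ∈ s, 0 < g ⟨m, h⟩))
    (Finset.filter_subset _ _)
  obtain ⟨w, rfl⟩ := (mem_pats φ u).1 hu
  have key : ∀ i : s, 0 < φ i w ↔ 0 < g i := by
    intro i
    have h1 : (i : M) ∈ s ∩ pat φ w ↔ (i : M) ∈ s.filter (fun m => ∃ h : m ∈ s, 0 < g ⟨m, h⟩) := by
      rw [hsu]
    rw [Finset.mem_inter, mem_pat, Finset.mem_filter] at h1
    constructor
    · intro h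
      exact (h1.1 ⟨i.2, h⟩).2.2
    · intro h
      exact (h1.2 ⟨i.2, i.2, h⟩).2
  have h2 : ∑ i, g i * φ i w = 0 := by
    have := congrArg (fun f : W →ₗ[ℝ] ℝ => f w) hg
    simpa [LinearMap.sum_apply] using this
  have h3 : 0 < ∑ i, g i * φ i w := by
    apply Finset.sum_pos'
    · intro i _
      by_cases h : 0 < g i
      · exact (mul_pos h ((key i).2 h)).le
      · have h' : ¬ 0 < φ i w := fun hh => h ((key i).1 hh)
        exact mul_nonneg_of_nonpos_of_nonpos (not_lt.1 h) (not_lt.1 h')
    · exact ⟨i0, Finset.mem_univ _, mul_pos hpos ((key i0).2 hpos)⟩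
  linarith

theorem shatter_card (φ : M → (W →ₗ[ℝ] ℝ)) (s : Finset M) (hs : (pats φ).Shatters s) :
    s.card ≤ Module.finrank ℝ W := by
  have hli : LinearIndependent ℝ (fun i : s => φ i) := by
    rw [Fintype.linearIndependent_iff]
    intro g hg i
    have h1 := shatter_aux φ s hs g hg i
    have hneg : ∑ i : s, (- g i) • φ i = 0 := by
      have e : ∑ i : s, (- g i) • φ i = -(∑ i : s, g i • φ i) := by
        rw [← Finset.sum_neg_distrib]
        refine Finset.sum_congr rfl (fun i _ => ?_)
        ext w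
        simp
      rw [e, hg, neg_zero]
    have h2 := shatter_aux φ s hs (fun i => - g i) hneg i
    linarith
  have := hli.fintype_card_le_finrank
  rw [Subspace.dual_finrank_eq] at this
  simpa using this

theorem card_pats (φ : M → (W →ₗ[ℝ] ℝ)) :
    (pats φ).card ≤ ∑ k ∈ Finset.Iic (Module.finrank ℝ W), (Fintype.card M).choose k := by
  refine (Finset.card_le_card_shatterer _).trans (Finset.card_shatterer_le_sum_vcDim.trans ?_)
  apply Finset.sum_le_sum_of_subset
  apply Finset.Iic_subset_Iic.2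
  unfold Finset.vcDim
  apply Finset.sup_le
  intro s hs
  exact shatter_card φ s (Finset.mem_shatterer.1 hs)

end Signs

theorem choose_sum (M d : ℕ) (hd : 0 < d) (hdM : d ≤ M) :
    ((∑ k ∈ Finset.Iic d, M.choose k : ℕ) : ℝ) ≤ (3 * (M : ℝ) / d) ^ d := by
  have hd' : (0 : ℝ) < d := by exact_mod_cast hd
  have hM' : (0 : ℝ) < M := by exact_mod_cast hd.trans_le hdM
  have hle : (1 : ℝ) ≤ (M : ℝ) / d := by
    rw [le_div_iff₀ hd']; rw [one_mul]; exact_mod_cast hdM
  have h1 : ((∑ k ∈ Finset.Iic d, M.choose k : ℕ) : ℝ) ≤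
      ((M : ℝ) / d) ^ d * ∑ k ∈ Finset.range (M + 1), ((d : ℝ) / M) ^ k * (M.choose k : ℝ) := by
    push_cast
    rw [Finset.mul_sum]
    calc ∑ k ∈ Finset.Iic d, (M.choose k : ℝ)
        ≤ ∑ k ∈ Finset.Iic d, ((M : ℝ) / d) ^ d * (((d : ℝ) / M) ^ k * (M.choose k : ℝ)) := by
          apply Finset.sum_le_sum
          intro k hk
          have hk' : k ≤ d := by simpa using hk
          have e : ((M : ℝ) / d) ^ d * ((d : ℝ) / M) ^ k = ((M : ℝ) / d) ^ (d - k) := by
            have : ((M : ℝ) / d) ^ d = ((M : ℝ) / d) ^ (d - k) * ((M : ℝ) / d) ^ k := by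
              rw [← pow_add]; congr 1; omega
            rw [this, mul_assoc, ← mul_pow]
            have : (M : ℝ) / d * (d / M) = 1 := by field_simp
            rw [this, one_pow, mul_one]
          rw [← mul_assoc, e]
          have : (1 : ℝ) ≤ ((M : ℝ) / d) ^ (d - k) := one_le_pow₀ hle
          have h0 : (0 : ℝ) ≤ (M.choose k : ℝ) := by positivity
          nlinarith
      _ ≤ ∑ k ∈ Finset.range (M + 1), ((M : ℝ) / d) ^ d * (((d : ℝ) / M) ^ k * (M.choose k : ℝ)) := by
          apply Finset.sum_le_sum_of_subset_of_nonneg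
          · intro k hk
            have hk' : k ≤ d := by simpa using hk
            rw [Finset.mem_range]; omega
          · intros; positivity
  have h2 : ∑ k ∈ Finset.range (M + 1), ((d : ℝ) / M) ^ k * (M.choose k : ℝ) =
      ((d : ℝ) / M + 1) ^ M := by
    rw [add_pow]
    simp
  have h3 : ((d : ℝ) / M + 1) ^ M ≤ 3 ^ d := by
    calc ((d : ℝ) / M + 1) ^ M ≤ (Real.exp ((d : ℝ) / M)) ^ M :=
          pow_le_pow_left₀ (by positivity) (Real.add_one_le_exp _) _
      _ = Real.exp d := by
          rw [← Real.exp_nat_mul]; congr 1; field_simp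
      _ = (Real.exp 1) ^ d := by
          rw [← Real.exp_nat_mul]; simp
      _ ≤ 3 ^ d := pow_le_pow_left₀ (Real.exp_pos 1).le (by
          have := Real.exp_one_lt_d9; linarith) _
  calc ((∑ k ∈ Finset.Iic d, M.choose k : ℕ) : ℝ)
      ≤ ((M : ℝ) / d) ^ d * ((d : ℝ) / M + 1) ^ M := by rw [← h2]; exact h1
    _ ≤ ((M : ℝ) / d) ^ d * 3 ^ d := by gcongr
    _ = (3 * (M : ℝ) / d) ^ d := by rw [← mul_pow]; congr 1; ring

section Upper

variable {V : Type} [Fintype V] [DecidableEq V]

/-- the linear forms: positivity of the three forms says `v a < l b`, `l b < r a`, `r a < v b` -/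
noncomputable def form (m : V × V × Fin 3) : (V ⊕ V → ℝ) →ₗ[ℝ] ℝ :=
  if m.2.2 = 0 then
    (2 : ℝ) • LinearMap.proj (R := ℝ) (φ := fun _ : V ⊕ V => ℝ) (Sum.inl m.2.1) -
      LinearMap.proj (R := ℝ) (φ := fun _ : V ⊕ V => ℝ) (Sum.inl m.1) -
      LinearMap.proj (R := ℝ) (φ := fun _ : V ⊕ V => ℝ) (Sum.inr m.1)
  else if m.2.2 = 1 then
    LinearMap.proj (R := ℝ) (φ := fun _ : V ⊕ V => ℝ) (Sum.inr m.1) -
      LinearMap.proj (R := ℝ) (φ := fun _ : V ⊕ V => ℝ) (Sum.inl m.2.1)
  else
    LinearMap.proj (R := ℝ) (φ := fun _ : V ⊕ V => ℝ) (Sum.inl m.2.1) +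
      LinearMap.proj (R := ℝ) (φ := fun _ : V ⊕ V => ℝ) (Sum.inr m.2.1) -
      (2 : ℝ) • LinearMap.proj (R := ℝ) (φ := fun _ : V ⊕ V => ℝ) (Sum.inr m.1)

omit [Fintype V] [DecidableEq V] in
theorem form0 (a b : V) (w : V ⊕ V → ℝ) :
    form (a, b, 0) w = 2 * w (Sum.inl b) - w (Sum.inl a) - w (Sum.inr a) := by
  simp [form]

omit [Fintype V] [DecidableEq V] in
theorem form1 (a b : V) (w : V ⊕ V → ℝ) :
    form (a, b, 1) w = w (Sum.inr a) - w (Sum.inl b) := by
  simp [form]

omit [Fintype V] [DecidableEq V] in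
theorem form2 (a b : V) (w : V ⊕ V → ℝ) :
    form (a, b, 2) w = w (Sum.inl b) + w (Sum.inr b) - 2 * w (Sum.inr a) := by
  simp [form]

/-- the graph determined by a pattern -/
def gof (P : Finset (V × V × Fin 3)) : SimpleGraph V :=
  SimpleGraph.fromRel (fun a b => (a, b, 0) ∈ P ∧ (a, b, 1) ∈ P ∧ (a, b, 2) ∈ P)

theorem exists_pat (G : SimpleGraph V) (hG : IsMVI G) :
    ∃ P ∈ pats (form (V := V)), gof P = G := by
  obtain ⟨l, v, r, ⟨h1, h2, h3⟩, h4⟩ := hG
  refine ⟨pat form (Sum.elim l r), (mem_pats _ _).2 ⟨_, rfl⟩, ?_⟩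
  have key : ∀ a b : V, ((a, b, 0) ∈ pat form (Sum.elim l r) ∧ (a, b, 1) ∈ pat form (Sum.elim l r) ∧
      (a, b, 2) ∈ pat form (Sum.elim l r)) ↔ (v a < l b ∧ l b < r a ∧ r a < v b) := by
    intro a b
    rw [mem_pat, mem_pat, mem_pat, form0, form1, form2, h4 a, h4 b]
    simp only [Sum.elim_inl, Sum.elim_inr]
    constructor
    · rintro ⟨h, h', h''⟩
      refine ⟨by linarith, by linarith, by linarith⟩
    · rintro ⟨h, h', h''⟩
      refine ⟨by linarith, by linarith, by linarith⟩
  ext a b
  rw [gof, SimpleGraph.fromRel_adj, key a b, key b a]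
  constructor
  · rintro ⟨hab, h⟩
    exact (h3 a b hab).2 h
  · intro h
    exact ⟨h.ne, (h3 a b h.ne).1 h⟩

theorem card_pats_form (n : ℕ) (hn : Fintype.card V = n) (hn0 : 0 < n) :
    ((pats (form (V := V))).card : ℝ) ≤ (9 * (n : ℝ) / 2) ^ (2 * n) := by
  have h1 := card_pats (form (V := V))
  have h2 : Module.finrank ℝ (V ⊕ V → ℝ) = 2 * n := by
    rw [Module.finrank_fintype_fun_eq_card, Fintype.card_sum, hn]; ring
  have h3 : Fintype.card (V × V × Fin 3) = 3 * n ^ 2 := by
    rw [Fintype.card_prod, Fintype.card_prod, Fintype.card_fin, hn]; ring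
  rw [h2, h3] at h1
  have h4 := choose_sum (3 * n ^ 2) (2 * n) (by omega) (by nlinarith)
  have h5 : ((pats (form (V := V))).card : ℝ) ≤
      ((∑ k ∈ Finset.Iic (2 * n), (3 * n ^ 2).choose k : ℕ) : ℝ) := by exact_mod_cast h1
  refine h5.trans (h4.trans (le_of_eq ?_))
  have hn' : (n : ℝ) ≠ 0 := by positivity
  congr 1
  push_cast
  field_simp
  ring

end Upper

section Lower

variable (K F : ℕ)

/-- three groups of probes, and the free vertices -/
abbrev Vtx (K F : ℕ) : Type := Fin K ⊕ (Fin K ⊕ (Fin K ⊕ Fin F))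

/-- positions of the three coordinates of the free vertices -/
abbrev Pos (K F : ℕ) : Type := Fin F → Fin K × Fin K × Fin K

/-- distance of two positions -/
noncomputable def T (F : ℕ) : ℝ := (F : ℝ) + 2

/-- length of a window -/
noncomputable def S (K F : ℕ) : ℝ := (K : ℝ) * T F

variable {K F}

/-- left endpoints -/
noncomputable def pl (p : Pos K F) : Vtx K F → ℝ :=
  Sum.elim (fun _ => -1) (Sum.elim (fun i => 2 * S K F + (i.val : ℝ) * T F)
    (Sum.elim (fun _ => 3 * S K F) (fun j => ((p j).1.val : ℝ) * T F + (j.val : ℝ) + 1)))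

/-- veto marks -/
noncomputable def pv (p : Pos K F) : Vtx K F → ℝ :=
  Sum.elim (fun i => (i.val : ℝ) * T F) (Sum.elim (fun _ => 6 * S K F)
    (Sum.elim (fun i => 4 * S K F + (i.val : ℝ) * T F)
      (fun j => 2 * S K F + ((p j).2.1.val : ℝ) * T F + 1)))

/-- right endpoints -/
noncomputable def pr (p : Pos K F) : Vtx K F → ℝ :=
  Sum.elim (fun _ => 2 * S K F) (Sum.elim (fun _ => 7 * S K F)
    (Sum.elim (fun _ => 7 * S K F)
      (fun j => 4 * S K F + ((p j).2.2.val : ℝ) * T F + 1)))

/-- the graph of a position vector -/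
noncomputable def gr (p : Pos K F) : SimpleGraph (Vtx K F) :=
  SimpleGraph.fromRel (fun a b => pv p a < pl p b ∧ pl p b < pr p a ∧ pr p a < pv p b)

theorem T_ge : (2 : ℝ) ≤ T F := by unfold T; linarith [(Nat.cast_nonneg F : (0 : ℝ) ≤ (F : ℝ))]

theorem fin_bound (i : Fin K) : (0 : ℝ) ≤ (i.val : ℝ) * T F ∧ (i.val : ℝ) * T F + T F ≤ S K F := by
  have h1 : (i.val : ℝ) + 1 ≤ K := by exact_mod_cast i.2
  have h2 : (2 : ℝ) ≤ T F := T_ge
  have h3 : (0 : ℝ) ≤ (i.val : ℝ) := by positivity
  constructor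
  · positivity
  · unfold S; nlinarith

theorem free_bound (j : Fin F) : (0 : ℝ) ≤ (j.val : ℝ) ∧ (j.val : ℝ) + 1 < T F := by
  have h1 : (j.val : ℝ) + 1 ≤ F := by exact_mod_cast j.2
  constructor
  · positivity
  · unfold T; linarith

theorem le_of_mul {i i' : Fin K} {x : ℝ} (hx : x < T F) (h : (i.val : ℝ) * T F < (i'.val : ℝ) * T F + x) :
    i ≤ i' := by
  by_contra hlt
  rw [not_le] at hlt
  have h1 : (i'.val : ℝ) + 1 ≤ i.val := by exact_mod_cast hlt
  have h2 : (2 : ℝ) ≤ T F := T_ge
  nlinarith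

theorem mul_le {i i' : Fin K} (h : i ≤ i') : (i.val : ℝ) * T F ≤ (i'.val : ℝ) * T F := by
  have h1 : (i.val : ℝ) ≤ i'.val := by exact_mod_cast h
  have h2 : (2 : ℝ) ≤ T F := T_ge
  nlinarith

theorem isVI (p : Pos K F) : IsVI (gr p) := by
  refine ⟨pl p, pv p, pr p, ?_, ?_, ?_⟩
  · rintro (i | i | i | j)
    · have := fin_bound (F := F) i; have := T_ge (F := F)
      simp only [pl, pv, pr, Sum.elim_inl, Sum.elim_inr]
      constructor <;> linarith
    · have := fin_bound (F := F) i; have := T_ge (F := F)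
      simp only [pl, pv, pr, Sum.elim_inl, Sum.elim_inr]
      constructor <;> linarith
    · have := fin_bound (F := F) i; have := T_ge (F := F)
      simp only [pl, pv, pr, Sum.elim_inl, Sum.elim_inr]
      constructor <;> linarith
    · have := fin_bound (F := F) (p j).1
      have := fin_bound (F := F) (p j).2.1
      have := fin_bound (F := F) (p j).2.2
      have := T_ge (F := F)
      have := free_bound j
      simp only [pl, pv, pr, Sum.elim_inl, Sum.elim_inr]
      constructor <;> linarith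
  · have h2 := T_ge (F := F)
    rintro (i | i | i | j) (i' | i' | i' | j') h3 h4 h5 <;>
      simp only [pl, pv, pr, Sum.elim_inl, Sum.elim_inr] at h3 h4 h5
    · congr 1
      exact le_antisymm (le_of_mul (x := 1) (by linarith) (by linarith))
        (le_of_mul (x := 1) (by linarith) (by linarith))
    · exfalso; have := fin_bound (F := F) i; linarith
    · exfalso; have := fin_bound (F := F) i; linarith
    · exfalso; have := fin_bound (F := F) i; have := fin_bound (F := F) (p j').2.2; linarith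
    · exfalso; have := fin_bound (F := F) i; linarith
    · congr 2
      exact le_antisymm (le_of_mul (x := 1) (by linarith) (by linarith))
        (le_of_mul (x := 1) (by linarith) (by linarith))
    · exfalso; have := fin_bound (F := F) i; have := fin_bound (F := F) i'; linarith
    · exfalso; have := fin_bound (F := F) i; have := fin_bound (F := F) (p j').2.2; linarith
    · exfalso; have := fin_bound (F := F) i; linarith
    · exfalso; have := fin_bound (F := F) i; have := fin_bound (F := F) i'; linarith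
    · congr 3
      exact le_antisymm (le_of_mul (x := 1) (by linarith) (by linarith))
        (le_of_mul (x := 1) (by linarith) (by linarith))
    · exfalso; have := fin_bound (F := F) i; have := fin_bound (F := F) (p j').2.2; linarith
    · exfalso; have := fin_bound (F := F) i'; have := fin_bound (F := F) (p j).2.2; linarith
    · exfalso; have := fin_bound (F := F) i'; have := fin_bound (F := F) (p j).2.2; linarith
    · exfalso; have := fin_bound (F := F) i'; have := fin_bound (F := F) (p j).2.2; linarith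
    · have hj := free_bound j
      have hj' := free_bound j'
      have e : (p j).1 = (p j').1 :=
        le_antisymm (le_of_mul (x := (j'.val : ℝ) + 1) (by linarith) (by linarith))
          (le_of_mul (x := (j.val : ℝ) + 1) (by linarith) (by linarith))
      rw [e] at h3
      congr 3
      apply Fin.ext
      have : (j.val : ℝ) = j'.val := by linarith
      exact_mod_cast this
  · intro a b hab
    rw [gr, SimpleGraph.fromRel_adj]
    simp [hab]

theorem adj0 (p : Pos K F) (i : Fin K) (j : Fin F) :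
    (gr p).Adj (Sum.inl i) (Sum.inr (Sum.inr (Sum.inr j))) ↔ i ≤ (p j).1 := by
  rw [gr, SimpleGraph.fromRel_adj]
  have h1 := fin_bound (F := F) i
  have h2 := T_ge (F := F)
  have h3 := fin_bound (F := F) (p j).1
  have h4 := fin_bound (F := F) (p j).2.1
  have h5 := fin_bound (F := F) (p j).2.2
  have h6 := free_bound j
  simp only [pl, pv, pr, Sum.elim_inl, Sum.elim_inr]
  constructor
  · rintro ⟨-, ⟨h, -, -⟩ | ⟨h, -, -⟩⟩
    · exact le_of_mul (x := (j.val : ℝ) + 1) (by linarith) (by linarith)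
    · exfalso; linarith
  · intro h
    have := mul_le (F := F) h
    refine ⟨by simp, Or.inl ⟨by linarith, by linarith, by linarith⟩⟩

theorem adj1 (p : Pos K F) (i : Fin K) (j : Fin F) :
    (gr p).Adj (Sum.inr (Sum.inl i)) (Sum.inr (Sum.inr (Sum.inr j))) ↔ (p j).2.1 < i := by
  rw [gr, SimpleGraph.fromRel_adj]
  have h1 := fin_bound (F := F) i
  have h2 := T_ge (F := F)
  have h3 := fin_bound (F := F) (p j).1
  have h4 := fin_bound (F := F) (p j).2.1
  have h5 := fin_bound (F := F) (p j).2.2
  have h6 := free_bound j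
  simp only [pl, pv, pr, Sum.elim_inl, Sum.elim_inr]
  constructor
  · rintro ⟨-, ⟨h, -, -⟩ | ⟨h, -, -⟩⟩
    · exfalso; linarith
    · by_contra hc
      rw [not_lt] at hc
      have := mul_le (F := F) hc
      linarith
  · intro h
    have h7 : ((p j).2.1.val : ℝ) + 1 ≤ (i.val : ℝ) := by exact_mod_cast h
    have h8 : ((p j).2.1.val : ℝ) * T F + T F ≤ (i.val : ℝ) * T F := by nlinarith
    refine ⟨by simp, Or.inr ⟨by linarith, by linarith, by linarith⟩⟩

theorem adj2 (p : Pos K F) (i : Fin K) (j : Fin F) :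
    (gr p).Adj (Sum.inr (Sum.inr (Sum.inl i))) (Sum.inr (Sum.inr (Sum.inr j))) ↔
      (p j).2.2 < i := by
  rw [gr, SimpleGraph.fromRel_adj]
  have h1 := fin_bound (F := F) i
  have h2 := T_ge (F := F)
  have h3 := fin_bound (F := F) (p j).1
  have h4 := fin_bound (F := F) (p j).2.1
  have h5 := fin_bound (F := F) (p j).2.2
  have h6 := free_bound j
  simp only [pl, pv, pr, Sum.elim_inl, Sum.elim_inr]
  constructor
  · rintro ⟨-, ⟨h, -, -⟩ | ⟨-, -, h⟩⟩
    · exfalso; linarith
    · by_contra hc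
      rw [not_lt] at hc
      have := mul_le (F := F) hc
      linarith
  · intro h
    have h7 : ((p j).2.2.val : ℝ) + 1 ≤ (i.val : ℝ) := by exact_mod_cast h
    have h8 : ((p j).2.2.val : ℝ) * T F + T F ≤ (i.val : ℝ) * T F := by nlinarith
    refine ⟨by simp, Or.inr ⟨by linarith, by linarith, by linarith⟩⟩

theorem gr_inj : Function.Injective (gr : Pos K F → SimpleGraph (Vtx K F)) := by
  intro p q h
  funext j
  refine Prod.ext ?_ (Prod.ext ?_ ?_)
  · apply eq_of_forall_le_iff
    intro i
    rw [← adj0, ← adj0, h]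
  · apply eq_of_forall_gt_iff
    intro i
    rw [← adj1, ← adj1, h]
  · apply eq_of_forall_gt_iff
    intro i
    rw [← adj2, ← adj2, h]

end Lower

/-- There is a finite veto interval graph that is not a midpoint veto interval graph. -/
theorem result : ∃ (V : Type) (_ : Finite V) (G : SimpleGraph V), IsVI G ∧ ¬ IsMVI G := by
  by_contra hcon
  obtain ⟨K, hK⟩ : ∃ K : ℕ, K = 50 ^ 20 := ⟨_, rfl⟩
  have hK0 : 0 < K := by rw [hK]; positivity
  have hall : ∀ p : Pos K (7 * K), IsMVI (gr p) := by
    intro p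
    by_contra hp
    exact hcon ⟨_, inferInstance, gr p, isVI p, hp⟩
  choose P hP hPG using fun p : Pos K (7 * K) => exists_pat (gr p) (hall p)
  have hinj : Function.Injective P := by
    intro p q h
    apply gr_inj
    rw [← hPG p, ← hPG q, h]
  have hcard : Fintype.card (Pos K (7 * K)) ≤ (pats (form (V := Vtx K (7 * K)))).card := by
    rw [← Finset.card_univ]
    exact Finset.card_le_card_of_injOn P (fun p _ => hP p) (hinj.injOn)
  have hn : Fintype.card (Vtx K (7 * K)) = 10 * K := by
    simp only [Fintype.card_sum, Fintype.card_fin]; ring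
  have hup := card_pats_form (10 * K) hn (by omega)
  have hpos : Fintype.card (Pos K (7 * K)) = K ^ (21 * K) := by
    rw [Fintype.card_fun, Fintype.card_prod, Fintype.card_prod, Fintype.card_fin, Fintype.card_fin,
      show K * (K * K) = K ^ 3 by ring, ← pow_mul]
    congr 1; ring
  rw [hpos] at hcard
  have h1 : ((K : ℝ)) ^ (21 * K) ≤ (9 * ((10 * K : ℕ) : ℝ) / 2) ^ (2 * (10 * K)) := by
    refine le_trans ?_ hup
    exact_mod_cast hcard
  have h2 : (K : ℝ) ^ (21 * K) = (50 * (K : ℝ)) ^ (20 * K) := by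
    rw [mul_pow, show 21 * K = 20 * K + K by ring, pow_add, mul_comm, pow_mul (50 : ℝ)]
    congr 2
    rw [hK]; push_cast; ring
  have h3 : (9 * ((10 * K : ℕ) : ℝ) / 2) ^ (2 * (10 * K)) = (45 * (K : ℝ)) ^ (20 * K) := by
    rw [show 2 * (10 * K) = 20 * K by ring]
    congr 1
    push_cast
    ring
  rw [h2, h3] at h1
  have hK' : (0 : ℝ) < K := by exact_mod_cast hK0
  have h4 : (45 * (K : ℝ)) ^ (20 * K) < (50 * (K : ℝ)) ^ (20 * K) :=
    pow_lt_pow_left₀ (by linarith) (by positivity) (by omega)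
  linarith

end Pool.Agent.Results.MP_c8a11a_co.NotAllMidpoint
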